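import Pool.Agent.Work.MP_2da030_co.H

set_option autoImplicit false

namespace Pool.Agent.Results.MP_2da030_co.UniversalBound

open Classical in
/-- The sum of the colours of the edges of the copy of `G` in the complete graph on `Fin N` given
by the injective map `φ`. A colouring of the edges of `K_N` is given as a function on all unordered
pairs; its values on the loops play no role, since the edges of a copy are not loops. -/
noncomputable def copySum {n N : ℕ} (G : SimpleGraph (Fin n)) (f : Sym2 (Fin N) → ZMod 3)
    (φ : Fin n ↪ Fin N) : ZMod 3 :=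
  ∑ e ∈ G.edgeFinset, f (e.map φ)

/-- `R` is a positive integer such that for every `N ≥ R` every colouring of the edges of `K_N` with
elements of `ZMod 3` has a zero-sum copy of `G`. -/
def IsRamseyBound {n : ℕ} (G : SimpleGraph (Fin n)) (R : ℕ) : Prop :=
  0 < R ∧ ∀ N : ℕ, R ≤ N → ∀ f : Sym2 (Fin N) → ZMod 3, ∃ φ : Fin n ↪ Fin N, copySum G f φ = 0

/-- For every graph `G` on `n` vertices whose number of edges is divisible by three, the zero-sum
Ramsey number `R(G, ZMod 3)` exists, is at most `n + 8`, and equals `n + 8` if and only if `G` is a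
triangle. -/
theorem result (n : ℕ) (G : SimpleGraph (Fin n)) (h3 : 3 ∣ G.edgeSet.ncard) :
    ∃ R : ℕ, IsLeast {R | IsRamseyBound G R} R ∧ R ≤ n + 8 ∧
      (R = n + 8 ↔ Nonempty (G ≃g (⊤ : SimpleGraph (Fin 3)))) := by
  classical
  have h3' : 3 ∣ G.edgeFinset.card := by
    rwa [← Set.ncard_coe_finset, SimpleGraph.coe_edgeFinset]
  have b8 : IsRamseyBound G (n + 8) := by
    refine ⟨by omega, fun N hN f => ?_⟩
    obtain ⟨φ, hφ⟩ := Pool.Agent.Work.MP_2da030_co.upper_fin G h3' (by omega)
      (fun hn _ => by omega) f
    refine ⟨φ, ?_⟩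
    unfold copySum
    convert hφ
  have hex : ∃ R, IsRamseyBound G R := ⟨n + 8, b8⟩
  have hleast : IsLeast {R | IsRamseyBound G R} (Nat.find hex) :=
    ⟨Nat.find_spec hex, fun R hR => Nat.find_min' hex hR⟩
  refine ⟨Nat.find hex, hleast, Nat.find_min' hex b8, ?_, ?_⟩
  · intro hR
    by_contra hG
    have b7 : IsRamseyBound G (n + 7) := by
      refine ⟨by omega, fun N hN f => ?_⟩
      obtain ⟨φ, hφ⟩ := Pool.Agent.Work.MP_2da030_co.upper_fin G h3' hN (fun hn hcl => by
        exfalso
        apply hG
        subst hn
        refine ⟨⟨Equiv.refl _, ?_⟩⟩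
        intro a b
        rw [SimpleGraph.top_adj]
        exact ⟨fun h => hcl a b h, fun h => G.ne_of_adj h⟩) f
      refine ⟨φ, ?_⟩
      unfold copySum
      convert hφ
    have := Nat.find_min' hex b7
    omega
  · rintro ⟨e⟩
    have hn : n = 3 := by
      have := Fintype.card_congr e.toEquiv
      simpa using this
    subst hn
    have hcl : ∀ a b : Fin 3, a ≠ b → G.Adj a b := by
      intro a b hab
      rw [← e.map_adj_iff, SimpleGraph.top_adj]
      exact fun h => hab (e.injective h)
    have hle := Nat.find_min' hex b8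
    have hge : 11 ≤ Nat.find hex := by
      by_contra hlt
      push Not at hlt
      obtain ⟨-, hall⟩ := Nat.find_spec hex
      obtain ⟨φ, hφ⟩ := hall 10 (by omega) Pool.Agent.Work.MP_2da030_co.colS
      apply Pool.Agent.Work.MP_2da030_co.lower10 G hcl φ
      unfold copySum at hφ
      convert hφ
    omega

end Pool.Agent.Results.MP_2da030_co.UniversalBound
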